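import Mathlib
import Pool.Agent.Helper10.EK.Base

open Set Filter Topology
open scoped ContDiff unitInterval

noncomputable section

namespace Pool.Agent.H427.EK

open Pool.Agent.Helper10.EK

/-- `Z` is a closed subset of `ℂ³/Γ` and the image of an injective proper holomorphic immersion
`ℂ^* = ℂ/ℤ → ℂ³/Γ`, that is, a closed embedded copy of `ℂ^*`: it is `{pr (F t)}` for a holomorphic
`F : ℂ → ℂ³` with nowhere vanishing derivative, `pr (F s) = pr (F t)` exactly when `s - t` is an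
integer, and `|Im t|` is bounded on the set of all `t` for which `pr (F t)` is in a given
compact set. -/
def IsClosedCStar (Γ : Type) [Group Γ] [MulAction Γ E] (Z : Set (Orb Γ)) : Prop :=
  IsClosed Z ∧ ∃ F : ℂ → E, Differentiable ℂ F ∧ (∀ t, deriv F t ≠ 0) ∧
    (∀ s t : ℂ, pr Γ (F s) = pr Γ (F t) ↔ ∃ n : ℤ, s - t = n) ∧
    (∀ K : Set (Orb Γ), IsCompact K → ∃ R : ℝ, ∀ t, pr Γ (F t) ∈ K → |t.im| ≤ R) ∧
    Z = Set.range fun t => pr Γ (F t)

theorem isClosed_int : IsClosed (Set.range fun n : ℤ => (n : ℂ)) := by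
  have h : Topology.IsClosedEmbedding (fun n : ℤ => (n : ℂ)) := Complex.isClosedEmbedding_intCast
  exact h.isClosed_range

theorem pr_eq {p q : E} : pr Heis p = pr Heis q ↔ ∃ g : Heis, g • q = p := by
  unfold pr
  rw [Quotient.eq]
  exact Iff.rfl

theorem closed_of {S : Set (Orb Heis)} (h : IsClosed (pr Heis ⁻¹' S)) : IsClosed S := by
  have hq : IsQuotientMap (pr Heis) := isQuotientMap_quotient_mk'
  exact hq.isClosed_preimage.1 h

theorem bdd_inv (f : E → ℝ) (hf : Continuous f) (hinv : ∀ (g : Heis) (p : E), f (g • p) = f p)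
    (K : Set (Orb Heis)) (hK : IsCompact K) : ∃ R : ℝ, ∀ p, pr Heis p ∈ K → |f p| ≤ R := by
  have hl : ∀ a b : E, MulAction.orbitRel Heis E a b → f a = f b := by
    rintro a b ⟨g, hg⟩
    have hg' : g • b = a := hg
    rw [← hg', hinv]
  obtain ⟨C, hC⟩ := hK.exists_bound_of_continuousOn
    (f := (Quotient.lift f hl : Orb Heis → ℝ)) (hf.quotient_lift hl).continuousOn
  exact ⟨C, fun p hp => hC _ hp⟩

theorem im_inv1 (g : Heis) (p : E) : (g • p).1.im = p.1.im := by
  rw [Heis.smul_def]; simp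

theorem im_inv2 (g : Heis) (p : E) : (g • p).2.1.im = p.2.1.im := by
  rw [Heis.smul_def]; simp

theorem rho_inv (g : Heis) (p : E) : rho (g • p) = rho p := by
  unfold rho
  rw [Heis.smul_def]
  simp only [Complex.add_im, Complex.add_re, Complex.intCast_im, Complex.intCast_re,
    Complex.mul_im]
  ring

theorem curveA (y0 z0 : ℂ) :
    IsClosedCStar Heis (Set.range fun t : ℂ => pr Heis (t, y0, z0)) := by
  refine ⟨?_, fun t => (t, y0, z0), by fun_prop, ?_, ?_, ?_, rfl⟩
  · apply closed_of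
    have e : pr Heis ⁻¹' (Set.range fun t : ℂ => pr Heis (t, y0, z0)) =
        (fun q : E => q.2.1 - y0) ⁻¹' (Set.range fun n : ℤ => (n : ℂ)) ∩
        (fun q : E => q.2.2 - z0 - (q.2.1 - y0) * q.1) ⁻¹' (Set.range fun n : ℤ => (n : ℂ)) := by
      ext q
      simp only [Set.mem_preimage, Set.mem_range, Set.mem_inter_iff, pr_eq, Heis.smul_def]
      constructor
      · rintro ⟨t, g, h⟩
        have h1 : q.1 + (g.m : ℂ) = t := congrArg Prod.fst h
        have h2 : q.2.1 + (g.n : ℂ) = y0 := congrArg (fun q : E => q.2.1) h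
        have h3 : q.2.2 + (g.k : ℂ) + (g.n : ℂ) * q.1 = z0 := congrArg (fun q : E => q.2.2) h
        refine ⟨⟨-g.n, by push_cast; linear_combination -h2⟩, ⟨-g.k, ?_⟩⟩
        push_cast
        linear_combination -h3 + q.1 * h2
      · rintro ⟨⟨n, hn⟩, ⟨j, hj⟩⟩
        refine ⟨q.1, ⟨0, -n, -j⟩, ?_⟩
        refine Prod.ext ?_ (Prod.ext ?_ ?_)
        · simp
        · simp only [Int.cast_neg]
          linear_combination -hn
        · simp only [Int.cast_neg]
          linear_combination -hj - q.1 * hn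
    rw [e]
    exact (isClosed_int.preimage (by fun_prop)).inter (isClosed_int.preimage (by fun_prop))
  · intro t h
    have hd : HasDerivAt (fun t : ℂ => ((t, y0, z0) : E)) ((1, 0, 0) : E) t :=
      (hasDerivAt_id t).prodMk ((hasDerivAt_const t y0).prodMk (hasDerivAt_const t z0))
    rw [hd.deriv] at h
    exact one_ne_zero (congrArg Prod.fst h)
  · intro s t
    rw [pr_eq]
    simp only [Heis.smul_def]
    constructor
    · rintro ⟨g, h⟩
      have h1 : t + (g.m : ℂ) = s := congrArg Prod.fst h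
      exact ⟨g.m, by linear_combination -h1⟩
    · rintro ⟨n, hn⟩
      refine ⟨⟨n, 0, 0⟩, ?_⟩
      refine Prod.ext ?_ (Prod.ext ?_ ?_)
      · simp only
        linear_combination -hn
      · simp
      · simp
  · intro K hK
    obtain ⟨R, hR⟩ := bdd_inv (fun p => p.1.im) (by fun_prop) im_inv1 K hK
    exact ⟨R, fun t ht => hR _ ht⟩

theorem curveB (x0 w0 : ℂ) :
    IsClosedCStar Heis (Set.range fun t : ℂ => pr Heis (x0, t, w0 + x0 * t)) := by
  refine ⟨?_, fun t => (x0, t, w0 + x0 * t), by fun_prop, ?_, ?_, ?_, rfl⟩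
  · apply closed_of
    have e : pr Heis ⁻¹' (Set.range fun t : ℂ => pr Heis (x0, t, w0 + x0 * t)) =
        (fun q : E => q.1 - x0) ⁻¹' (Set.range fun n : ℤ => (n : ℂ)) ∩
        (fun q : E => q.2.2 - w0 - x0 * q.2.1) ⁻¹' (Set.range fun n : ℤ => (n : ℂ)) := by
      ext q
      simp only [Set.mem_preimage, Set.mem_range, Set.mem_inter_iff, pr_eq, Heis.smul_def]
      constructor
      · rintro ⟨t, g, h⟩
        have h1 : q.1 + (g.m : ℂ) = x0 := congrArg Prod.fst h
        have h2 : q.2.1 + (g.n : ℂ) = t := congrArg (fun q : E => q.2.1) h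
        have h3 : q.2.2 + (g.k : ℂ) + (g.n : ℂ) * q.1 = w0 + x0 * t :=
          congrArg (fun q : E => q.2.2) h
        refine ⟨⟨-g.m, by push_cast; linear_combination -h1⟩, ⟨g.n * g.m - g.k, ?_⟩⟩
        push_cast
        linear_combination -h3 + x0 * h2 + (g.n : ℂ) * h1
      · rintro ⟨⟨m, hm⟩, ⟨j, hj⟩⟩
        refine ⟨q.2.1, ⟨-m, 0, -j⟩, ?_⟩
        refine Prod.ext ?_ (Prod.ext ?_ ?_)
        · simp only [Int.cast_neg]
          linear_combination -hm
        · simp
        · simp only [Int.cast_neg, Int.cast_zero]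
          linear_combination -hj
    rw [e]
    exact (isClosed_int.preimage (by fun_prop)).inter (isClosed_int.preimage (by fun_prop))
  · intro t h
    have hd : HasDerivAt (fun t : ℂ => ((x0, t, w0 + x0 * t) : E)) ((0, 1, x0 * 1) : E) t :=
      (hasDerivAt_const t x0).prodMk ((hasDerivAt_id t).prodMk
        (((hasDerivAt_id t).const_mul x0).const_add w0))
    rw [hd.deriv] at h
    exact one_ne_zero (congrArg (fun q : E => q.2.1) h)
  · intro s t
    rw [pr_eq]
    simp only [Heis.smul_def]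
    constructor
    · rintro ⟨g, h⟩
      have h2 : t + (g.n : ℂ) = s := congrArg (fun q : E => q.2.1) h
      exact ⟨g.n, by linear_combination -h2⟩
    · rintro ⟨n, hn⟩
      refine ⟨⟨0, n, 0⟩, ?_⟩
      refine Prod.ext ?_ (Prod.ext ?_ ?_)
      · simp
      · simp only
        linear_combination -hn
      · simp only [Int.cast_zero]
        linear_combination -x0 * hn
  · intro K hK
    obtain ⟨R, hR⟩ := bdd_inv (fun p => p.2.1.im) (by fun_prop) im_inv2 K hK
    exact ⟨R, fun t ht => hR _ ht⟩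

theorem curveC (x0 y0 : ℂ) :
    IsClosedCStar Heis (Set.range fun t : ℂ => pr Heis (x0, y0, t)) := by
  refine ⟨?_, fun t => (x0, y0, t), by fun_prop, ?_, ?_, ?_, rfl⟩
  · apply closed_of
    have e : pr Heis ⁻¹' (Set.range fun t : ℂ => pr Heis (x0, y0, t)) =
        (fun q : E => q.1 - x0) ⁻¹' (Set.range fun n : ℤ => (n : ℂ)) ∩
        (fun q : E => q.2.1 - y0) ⁻¹' (Set.range fun n : ℤ => (n : ℂ)) := by
      ext q
      simp only [Set.mem_preimage, Set.mem_range, Set.mem_inter_iff, pr_eq, Heis.smul_def]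
      constructor
      · rintro ⟨t, g, h⟩
        have h1 : q.1 + (g.m : ℂ) = x0 := congrArg Prod.fst h
        have h2 : q.2.1 + (g.n : ℂ) = y0 := congrArg (fun q : E => q.2.1) h
        exact ⟨⟨-g.m, by push_cast; linear_combination -h1⟩,
          ⟨-g.n, by push_cast; linear_combination -h2⟩⟩
      · rintro ⟨⟨m, hm⟩, ⟨n, hn⟩⟩
        refine ⟨q.2.2 + (-n : ℂ) * q.1, ⟨-m, -n, 0⟩, ?_⟩
        refine Prod.ext ?_ (Prod.ext ?_ ?_)
        · simp only [Int.cast_neg]
          linear_combination -hm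
        · simp only [Int.cast_neg]
          linear_combination -hn
        · simp
    rw [e]
    exact (isClosed_int.preimage (by fun_prop)).inter (isClosed_int.preimage (by fun_prop))
  · intro t h
    have hd : HasDerivAt (fun t : ℂ => ((x0, y0, t) : E)) ((0, 0, 1) : E) t :=
      (hasDerivAt_const t x0).prodMk ((hasDerivAt_const t y0).prodMk (hasDerivAt_id t))
    rw [hd.deriv] at h
    exact one_ne_zero (congrArg (fun q : E => q.2.2) h)
  · intro s t
    rw [pr_eq]
    simp only [Heis.smul_def]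
    constructor
    · rintro ⟨g, h⟩
      have h2 : y0 + (g.n : ℂ) = y0 := congrArg (fun q : E => q.2.1) h
      have h3 : t + (g.k : ℂ) + (g.n : ℂ) * x0 = s := congrArg (fun q : E => q.2.2) h
      have hn : (g.n : ℂ) = 0 := by linear_combination h2
      rw [hn] at h3
      exact ⟨g.k, by linear_combination -h3⟩
    · rintro ⟨n, hn⟩
      refine ⟨⟨0, 0, n⟩, ?_⟩
      refine Prod.ext ?_ (Prod.ext ?_ ?_)
      · simp
      · simp
      · simp only [Int.cast_zero]
        linear_combination -hn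
  · intro K hK
    obtain ⟨R, hR⟩ := bdd_inv rho (by unfold rho; fun_prop) rho_inv K hK
    refine ⟨R + |y0.re * x0.im|, fun t ht => ?_⟩
    have h1 := hR _ ht
    have h2 : rho (x0, y0, t) = t.im - y0.re * x0.im := rfl
    rw [h2] at h1
    have h3 := abs_add_le (t.im - y0.re * x0.im) (y0.re * x0.im)
    rw [sub_add_cancel] at h3
    linarith

/-- Any two points are joined by a chain of three closed copies of `ℂ^*`. -/
theorem closed_chain (x y : Orb Heis) : ∃ Z₁ Z₂ Z₃ : Set (Orb Heis),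
    IsClosedCStar Heis Z₁ ∧ IsClosedCStar Heis Z₂ ∧ IsClosedCStar Heis Z₃ ∧
    x ∈ Z₁ ∧ (Z₁ ∩ Z₂).Nonempty ∧ (Z₂ ∩ Z₃).Nonempty ∧ y ∈ Z₃ := by
  obtain ⟨p, rfl⟩ := Quotient.exists_rep x
  obtain ⟨q, rfl⟩ := Quotient.exists_rep y
  refine ⟨_, _, _, curveA p.2.1 p.2.2, curveB q.1 (p.2.2 - q.1 * p.2.1), curveC q.1 q.2.1,
    ⟨p.1, rfl⟩, ⟨pr Heis (q.1, p.2.1, p.2.2), ⟨q.1, rfl⟩, ⟨p.2.1, ?_⟩⟩,
    ⟨pr Heis (q.1, q.2.1, p.2.2 - q.1 * p.2.1 + q.1 * q.2.1), ⟨q.2.1, rfl⟩, ⟨_, rfl⟩⟩,
    ⟨q.2.2, rfl⟩⟩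
  show pr Heis (q.1, p.2.1, p.2.2 - q.1 * p.2.1 + q.1 * p.2.1) = _
  rw [sub_add_cancel]

end Pool.Agent.H427.EK
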